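import Pool.Agent.H23.NVK.MTargets

/-!
# Row M_MU3 of the board nvk_modules: the mollifier sum of the first moment
-/

set_option autoImplicit false

open MeasureTheory Set Filter

namespace Pool.Agent.H38.NVK

open Pool.Agent.H23.NVK

/-! ### Smoothed sums of a convolution with a small factor -/

lemma pow_diff {u v : ℝ} (hu : 0 ≤ u) (huv : u ≤ v) (e : ℕ) :
    v ^ (e + 1) - u ^ (e + 1) ≤ (e + 1) * (v - u) * v ^ e := by
  induction e with
  | zero => simp
  | succ e ih =>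
    have hv : 0 ≤ v := hu.trans huv
    have h1 : u ^ (e + 1) ≤ v ^ (e + 1) := pow_le_pow_left₀ hu huv _
    have h2 : v ^ (e + 1 + 1) - u ^ (e + 1 + 1) =
        v * (v ^ (e + 1) - u ^ (e + 1)) + (v - u) * u ^ (e + 1) := by ring
    rw [h2]
    have h3 : v * (v ^ (e + 1) - u ^ (e + 1)) ≤ v * ((e + 1) * (v - u) * v ^ e) :=
      mul_le_mul_of_nonneg_left ih hv
    have h4 : (v - u) * u ^ (e + 1) ≤ (v - u) * v ^ (e + 1) :=
      mul_le_mul_of_nonneg_left h1 (by linarith)
    have h5 : v * ((e + 1) * (v - u) * v ^ e) + (v - u) * v ^ (e + 1) =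
        (((e + 1 : ℕ) : ℝ) + 1) * (v - u) * v ^ (e + 1) := by
      push_cast
      ring
    linarith

lemma phi_bound {y B : ℝ} (hy : 1 ≤ y) (hB : 1 ≤ B) (e : ℕ) [Decidable (B ≤ y)] :
    |(if B ≤ y then lg (e + 1) (y / B) else 0) - lg (e + 1) y| ≤
      (e + 1) * Real.log B * (1 + Real.log y) ^ e := by
  have hy0 : 0 < y := by linarith
  have hL := Real.log_nonneg hy
  have hb0 : (0 : ℝ) < B := by linarith
  have hlb := Real.log_nonneg hB
  have hpow : Real.log y ^ e ≤ (1 + Real.log y) ^ e := pow_le_pow_left₀ hL (by linarith) _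
  unfold lg
  split_ifs with h
  · have h4 : 1 ≤ y / B := by rw [le_div_iff₀ hb0, one_mul]; exact h
    have h5 := Real.log_nonneg h4
    have h6 : Real.log (y / B) = Real.log y - Real.log B := Real.log_div hy0.ne' hb0.ne'
    have h7 := pow_diff h5 (by linarith : Real.log (y / B) ≤ Real.log y) e
    have h8 : Real.log (y / B) ^ (e + 1) ≤ Real.log y ^ (e + 1) :=
      pow_le_pow_left₀ h5 (by linarith) _
    rw [abs_sub_comm, abs_of_nonneg (by linarith)]
    refine h7.trans ?_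
    rw [show Real.log y - Real.log (y / B) = Real.log B by linarith]
    gcongr
  · have h3 : y ≤ B := by linarith
    have h4 : Real.log y ≤ Real.log B := Real.log_le_log hy0 h3
    rw [zero_sub, abs_neg, abs_of_nonneg (by positivity), pow_succ]
    calc Real.log y ^ e * Real.log y ≤ (1 + Real.log y) ^ e * Real.log B := by gcongr
      _ = 1 * Real.log B * (1 + Real.log y) ^ e := by ring
      _ ≤ _ := by
          gcongr
          have : (0 : ℝ) ≤ e := Nat.cast_nonneg e
          linarith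

lemma log_div_le {B : ℝ} (hB : 1 ≤ B) : Real.log B / B ≤ 4 * B ^ (-(3 / 4) : ℝ) := by
  have hb0 : (0 : ℝ) < B := by linarith
  have h1 := Real.log_le_rpow_div hb0.le (show (0 : ℝ) < 1 / 4 by norm_num)
  rw [div_le_iff₀ hb0]
  have h2 : 4 * B ^ (-(3 / 4) : ℝ) * B = B ^ (1 / 4 : ℝ) / (1 / 4) := by
    have h3 : B ^ (-(3 / 4) : ℝ) * B = B ^ (1 / 4 : ℝ) := by
      nth_rewrite 2 [← Real.rpow_one B]
      rw [← Real.rpow_add hb0]
      norm_num
    rw [mul_assoc, h3]
    ring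
  rw [h2]
  exact h1

lemma inv_le_rpow {B : ℝ} (hB : 1 ≤ B) : 1 / B ≤ B ^ (-(3 / 4) : ℝ) := by
  rw [one_div, ← Real.rpow_neg_one]
  exact Real.rpow_le_rpow_of_exponent_le hB (by norm_num)

section

variable {α : Type} {N : α → ℕ} {ρ δ : ℝ}

lemma cv_comm (a b : (α →₀ ℕ) → ℝ) (n : α →₀ ℕ) : cv a b n = cv b a n := by
  classical
  unfold cv
  refine Finset.sum_bij' (fun x _ => (x.2, x.1)) (fun x _ => (x.2, x.1)) ?_ ?_ ?_ ?_ ?_
  · intro x hx
    rw [Finset.HasAntidiagonal.mem_antidiagonal] at hx ⊢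
    rw [← hx]
    exact add_comm _ _
  · intro x hx
    rw [Finset.HasAntidiagonal.mem_antidiagonal] at hx ⊢
    rw [← hx]
    exact add_comm _ _
  · intro x _
    rfl
  · intro x _
    rfl
  · intro x _
    exact mul_comm _ _

lemma Lam_add (a : (α →₀ ℕ) → ℝ) (f g : ℝ → ℝ) (y : ℝ) :
    Lam N a (fun x => f x + g x) y = Lam N a f y + Lam N a g y := by
  unfold Lam
  rw [← Finset.sum_add_distrib]
  exact Finset.sum_congr rfl fun n _ => by ring

lemma Lam_smul (a : (α →₀ ℕ) → ℝ) (A : ℝ) (f : ℝ → ℝ) (y : ℝ) :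
    Lam N a (fun x => A * f x) y = A * Lam N a f y := by
  unfold Lam
  rw [Finset.mul_sum]
  exact Finset.sum_congr rfl fun n _ => by ring

theorem conv_asymp (h : AxA N ρ δ) {a g : (α →₀ ℕ) → ℝ} {K e : ℕ} {A C : ℝ} (hC : 0 ≤ C)
    (ha : ∀ y : ℝ, 1 ≤ y → |Lam N a (lg K) y - A * lg (e + 1) y| ≤ C * (1 + Real.log y) ^ e)
    (hs : Summable (fun b : α →₀ ℕ => |g b| * (nF N b : ℝ) ^ (-(3 / 4) : ℝ))) {y : ℝ}
    (hy : 1 ≤ y) :
    |Lam N (cv a g) (lg K) y - (∑' b : α →₀ ℕ, g b / nF N b) * (A * lg (e + 1) y)| ≤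
      (C + |A| * (4 * (e + 1))) * (∑' b : α →₀ ℕ, |g b| * (nF N b : ℝ) ^ (-(3 / 4) : ℝ)) *
        (1 + Real.log y) ^ e := by
  classical
  have hy0 : 0 < y := by linarith
  have hL := Real.log_nonneg hy
  obtain ⟨S, hS⟩ : ∃ S : ℝ, S = ∑' b : α →₀ ℕ, |g b| * (nF N b : ℝ) ^ (-(3 / 4) : ℝ) := ⟨_, rfl⟩
  have hP : 0 ≤ (1 + Real.log y) ^ e := by positivity
  have hF1 : ∀ b : α →₀ ℕ, (1 : ℝ) ≤ nF N b := fun b => by exact_mod_cast h.one_le_nF b
  have hF0 : ∀ b : α →₀ ℕ, (0 : ℝ) < nF N b := fun b => by linarith [hF1 b]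
  -- summability of `g b / b`
  have hsum : Summable (fun b : α →₀ ℕ => g b / nF N b) := by
    refine Summable.of_norm_bounded hs fun b => ?_
    rw [Real.norm_eq_abs, abs_div, abs_of_pos (hF0 b), div_eq_mul_one_div]
    exact mul_le_mul_of_nonneg_left (inv_le_rpow (hF1 b)) (abs_nonneg _)
  -- first part
  obtain ⟨ε, hε⟩ : ∃ ε : ℝ → ℝ, ε = fun x => Lam N a (lg K) x - A * lg (e + 1) x := ⟨_, rfl⟩
  have h1 : Lam N (cv a g) (lg K) y = A * Lam N g (lg (e + 1)) y + Lam N g ε y := by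
    have h2 : Lam N (cv a g) (lg K) y = Lam N (cv g a) (lg K) y := by
      unfold Lam
      exact Finset.sum_congr rfl fun n _ => by rw [cv_comm]
    rw [h2, ← h.Lam_Lam]
    have h3 : Lam N a (lg K) = fun x => A * lg (e + 1) x + ε x := by
      funext x
      rw [hε]
      ring
    rw [h3, Lam_add, Lam_smul]
  -- the error term
  have h2 : |Lam N g ε y| ≤ C * S * (1 + Real.log y) ^ e := by
    unfold Lam
    calc |∑ n ∈ FM N y, g n / nF N n * ε (y / nF N n)|
        ≤ ∑ n ∈ FM N y, |g n / nF N n * ε (y / nF N n)| := Finset.abs_sum_le_sum_abs _ _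
      _ ≤ ∑ n ∈ FM N y, C * (1 + Real.log y) ^ e *
          (|g n| * (nF N n : ℝ) ^ (-(3 / 4) : ℝ)) := by
          refine Finset.sum_le_sum fun n hn => ?_
          have h3 : (nF N n : ℝ) ≤ y := h.mem_FM.1 hn
          have h4 : 1 ≤ y / nF N n := by rw [le_div_iff₀ (hF0 n), one_mul]; exact h3
          have h5 : y / nF N n ≤ y := div_le_self hy0.le (hF1 n)
          have h6 : |ε (y / nF N n)| ≤ C * (1 + Real.log y) ^ e := by
            rw [hε]
            refine (ha _ h4).trans ?_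
            have h7 := Real.log_nonneg h4
            have h8 := Real.log_le_log (by linarith) h5
            gcongr
          rw [abs_mul, abs_div, abs_of_pos (hF0 n), mul_comm]
          have h9 : |g n| / nF N n ≤ |g n| * (nF N n : ℝ) ^ (-(3 / 4) : ℝ) := by
            rw [div_eq_mul_one_div]
            exact mul_le_mul_of_nonneg_left (inv_le_rpow (hF1 n)) (abs_nonneg _)
          exact mul_le_mul h6 h9 (by positivity) (by positivity)
      _ = C * (1 + Real.log y) ^ e * ∑ n ∈ FM N y,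
          (|g n| * (nF N n : ℝ) ^ (-(3 / 4) : ℝ)) := by rw [Finset.mul_sum]
      _ ≤ C * (1 + Real.log y) ^ e * S := by
          rw [hS]
          refine mul_le_mul_of_nonneg_left ?_ (by positivity)
          exact hs.sum_le_tsum _ fun b _ => by positivity
      _ = _ := by ring
  -- the main term
  have h3 : |Lam N g (lg (e + 1)) y - (∑' b : α →₀ ℕ, g b / nF N b) * lg (e + 1) y| ≤
      4 * (e + 1) * (1 + Real.log y) ^ e * S := by
    have h4 : Lam N g (lg (e + 1)) y = ∑' b : α →₀ ℕ,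
        g b / nF N b * (if (nF N b : ℝ) ≤ y then lg (e + 1) (y / nF N b) else 0) := by
      rw [tsum_eq_sum (s := FM N y)]
      · unfold Lam
        exact Finset.sum_congr rfl fun b hb => by rw [if_pos (h.mem_FM.1 hb)]
      · intro b hb
        rw [if_neg (fun hb' => hb (h.mem_FM.2 hb')), mul_zero]
    have hs1 : Summable (fun b : α →₀ ℕ =>
        g b / nF N b * (if (nF N b : ℝ) ≤ y then lg (e + 1) (y / nF N b) else 0)) := by
      refine summable_of_ne_finset_zero (s := FM N y) fun b hb => ?_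
      rw [if_neg (fun hb' => hb (h.mem_FM.2 hb')), mul_zero]
    have h5 : Lam N g (lg (e + 1)) y - (∑' b : α →₀ ℕ, g b / nF N b) * lg (e + 1) y =
        ∑' b : α →₀ ℕ, g b / nF N b *
          ((if (nF N b : ℝ) ≤ y then lg (e + 1) (y / nF N b) else 0) - lg (e + 1) y) := by
      rw [h4, ← tsum_mul_right, ← hs1.tsum_sub (hsum.mul_right _)]
      exact tsum_congr fun b => by ring
    rw [h5, ← Real.norm_eq_abs]
    have hg : HasSum (fun b : α →₀ ℕ => 4 * (e + 1) * (1 + Real.log y) ^ e *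
        (|g b| * (nF N b : ℝ) ^ (-(3 / 4) : ℝ))) (4 * (e + 1) * (1 + Real.log y) ^ e * S) := by
      rw [hS]
      exact hs.hasSum.mul_left _
    refine tsum_of_norm_bounded hg fun b => ?_
    have hb0 := hF0 b
    rw [Real.norm_eq_abs, abs_mul, abs_div, abs_of_pos hb0]
    calc |g b| / nF N b * |(if (nF N b : ℝ) ≤ y then lg (e + 1) (y / nF N b) else 0) -
          lg (e + 1) y|
        ≤ |g b| / nF N b * ((e + 1) * Real.log (nF N b) * (1 + Real.log y) ^ e) :=
          mul_le_mul_of_nonneg_left (phi_bound hy (hF1 b) e) (by positivity)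
      _ = (e + 1) * (1 + Real.log y) ^ e * |g b| * (Real.log (nF N b) / nF N b) := by ring
      _ ≤ (e + 1) * (1 + Real.log y) ^ e * |g b| * (4 * (nF N b : ℝ) ^ (-(3 / 4) : ℝ)) :=
          mul_le_mul_of_nonneg_left (log_div_le (hF1 b)) (by positivity)
      _ = _ := by ring
  have h6 : Lam N (cv a g) (lg K) y - (∑' b : α →₀ ℕ, g b / nF N b) * (A * lg (e + 1) y) =
      A * (Lam N g (lg (e + 1)) y - (∑' b : α →₀ ℕ, g b / nF N b) * lg (e + 1) y) +
        Lam N g ε y := by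
    rw [h1]
    ring
  rw [h6, ← hS]
  calc |A * (Lam N g (lg (e + 1)) y - (∑' b : α →₀ ℕ, g b / nF N b) * lg (e + 1) y) +
        Lam N g ε y|
      ≤ |A * (Lam N g (lg (e + 1)) y - (∑' b : α →₀ ℕ, g b / nF N b) * lg (e + 1) y)| +
        |Lam N g ε y| := abs_add_le _ _
    _ = |A| * |Lam N g (lg (e + 1)) y - (∑' b : α →₀ ℕ, g b / nF N b) * lg (e + 1) y| +
        |Lam N g ε y| := by
        rw [abs_mul]
    _ ≤ |A| * (4 * (e + 1) * (1 + Real.log y) ^ e * S) + C * S * (1 + Real.log y) ^ e := by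
        gcongr
    _ = _ := by ring

end

/-! ### The local factors -/

section

variable {α : Type} {N : α → ℕ} {ρ δ : ℝ}

/-- the local factor of the Möbius function -/
noncomputable def f0 (_ : α) (k : ℕ) : ℝ := if k = 0 then 1 else if k = 1 then -1 else 0

open Classical in
/-- the local factor of the indicator of the elements supported in `R` -/
noncomputable def gR (R : Finset α) (p : α) (k : ℕ) : ℝ :=
  if p ∈ R then 1 else if k = 0 then 1 else 0

open Classical in
/-- the local factor of the Möbius function with coprimality -/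
noncomputable def cR (R : Finset α) (p : α) (k : ℕ) : ℝ :=
  if p ∈ R then (if k = 0 then 1 else 0) else f0 p k

/-- the Möbius function with coprimality -/
noncomputable def cN (R : Finset α) (n : α →₀ ℕ) : ℝ := n.prod (cR R)

/-- the indicator of the elements supported in `R` -/
noncomputable def gN (R : Finset α) (n : α →₀ ℕ) : ℝ := n.prod (gR R)

lemma mr_eq (n : α →₀ ℕ) : mr n = n.prod f0 := by
  unfold mr Finsupp.prod f0
  refine Finset.prod_congr rfl fun p hp => ?_
  rw [if_neg (Finsupp.mem_support_iff.1 hp)]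

open Classical in
lemma cN_eq (R : Finset α) (n : α →₀ ℕ) :
    cN R n = if Disjoint n.support R then mr n else 0 := by
  unfold cN
  split_ifs with h
  · rw [mr_eq]
    unfold Finsupp.prod cR
    refine Finset.prod_congr rfl fun p hp => ?_
    rw [if_neg (Finset.disjoint_left.1 h hp)]
  · rw [Finset.not_disjoint_iff] at h
    obtain ⟨p, hp, hpR⟩ := h
    unfold Finsupp.prod
    refine Finset.prod_eq_zero hp ?_
    unfold cR
    rw [if_pos hpR, if_neg (Finsupp.mem_support_iff.1 hp)]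

lemma gR_zero (R : Finset α) (p : α) : gR R p 0 = 1 := by
  classical
  by_cases hp : p ∈ R <;> simp [gR, hp]

lemma gR_nonneg (R : Finset α) (p : α) (k : ℕ) : 0 ≤ gR R p k := by
  unfold gR
  split_ifs <;> norm_num

lemma sum_f0_gR (R : Finset α) (p : α) (k : ℕ) :
    ∑ i ∈ Finset.HasAntidiagonal.antidiagonal k, f0 p i.1 * gR R p i.2 = cR R p k := by
  classical
  rw [Finset.Nat.sum_antidiagonal_eq_sum_range_succ (fun i j => f0 p i * gR R p j) k]
  unfold cR gR
  by_cases hp : p ∈ R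
  · simp only [if_pos hp, mul_one]
    rcases k with _ | k
    · simp [f0]
    · rw [if_neg (by omega), Nat.succ_eq_add_one, Finset.sum_range_succ', Finset.sum_range_succ']
      have h3 : ∑ j ∈ Finset.range k, f0 p (j + 1 + 1) = 0 :=
        Finset.sum_eq_zero fun j _ => by unfold f0; rw [if_neg (by omega), if_neg (by omega)]
      rw [h3]
      simp [f0]
  · simp only [if_neg hp]
    rw [Finset.sum_eq_single k]
    · simp
    · intro j hj hjk
      have := Finset.mem_range.1 hj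
      rw [if_neg (by omega), mul_zero]
    · intro hk
      exact absurd (Finset.mem_range.2 (by omega)) hk

lemma cv_mr_gN (hCVP : T_CVP) (R : Finset α) (n : α →₀ ℕ) : cv mr (gN R) n = cN R n := by
  have h := hCVP α f0 (gR R) (fun p => by unfold f0; rw [if_pos rfl]) (gR_zero R) n
  have h1 : (mr : (α →₀ ℕ) → ℝ) = fun a => a.prod f0 := funext mr_eq
  have h2 : gN R = fun b => b.prod (gR R) := rfl
  rw [h1, h2, h]
  unfold cN Finsupp.prod
  exact Finset.prod_congr rfl fun p _ => sum_f0_gR R p _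

lemma nF_rpow (n : α →₀ ℕ) (t : ℝ) :
    (nF N n : ℝ) ^ (-t) = n.prod (fun p k => ((N p : ℝ) ^ (-t)) ^ k) := by
  unfold nF Finsupp.prod
  push_cast
  rw [← Real.finsetProd_rpow _ _ (fun p _ => by positivity)]
  refine Finset.prod_congr rfl fun p _ => ?_
  rw [← Real.rpow_natCast, ← Real.rpow_mul (by positivity), ← Real.rpow_natCast,
    ← Real.rpow_mul (by positivity), mul_comm]

open Classical in
/-- the local factor with a weight -/
noncomputable def wR (N : α → ℕ) (R : Finset α) (t : ℝ) (p : α) (k : ℕ) : ℝ :=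
  gR R p k * ((N p : ℝ) ^ (-t)) ^ k

lemma wR_prod (R : Finset α) (t : ℝ) (n : α →₀ ℕ) :
    n.prod (wR N R t) = gN R n * (nF N n : ℝ) ^ (-t) := by
  rw [nF_rpow]
  unfold gN Finsupp.prod wR
  rw [Finset.prod_mul_distrib]

lemma wt_lt (h : AxA N ρ δ) {t : ℝ} (ht : 0 < t) (p : α) :
    0 ≤ (N p : ℝ) ^ (-t) ∧ (N p : ℝ) ^ (-t) < 1 := by
  have h2 : (1 : ℝ) < N p := by
    have := h.two p
    exact_mod_cast this
  exact ⟨by positivity, Real.rpow_lt_one_of_one_lt_of_neg h2 (by linarith)⟩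

lemma wR_summable (h : AxA N ρ δ) (R : Finset α) {t : ℝ} (ht : 0 < t) :
    Summable (fun x : α × ℕ => |wR N R t x.1 (x.2 + 1)|) := by
  classical
  have hz : ∀ p : α, p ∉ R → ∀ k : ℕ, |wR N R t p (k + 1)| = 0 := by
    intro p hp k
    unfold wR gR
    rw [if_neg hp, if_neg (by omega), zero_mul, abs_zero]
  rw [summable_prod_of_nonneg (fun x => abs_nonneg _)]
  constructor
  · intro p
    by_cases hp : p ∈ R
    · have hr := wt_lt h ht p
      have h3 : Summable (fun k : ℕ => (N p : ℝ) ^ (-t) * ((N p : ℝ) ^ (-t)) ^ k) :=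
        (summable_geometric_of_lt_one hr.1 hr.2).mul_left _
      refine h3.congr fun k => ?_
      unfold wR gR
      rw [if_pos hp, one_mul, abs_of_nonneg (by positivity), pow_succ']
    · exact summable_zero.congr fun k => (hz p hp k).symm
  · refine summable_of_ne_finset_zero (s := R) fun p hp => ?_
    simp only [hz p hp, tsum_zero]

lemma gN_summable (hEUL : T_EUL) (h : AxA N ρ δ) (R : Finset α) :
    Summable (fun b : α →₀ ℕ => |gN R b| * (nF N b : ℝ) ^ (-(3 / 4) : ℝ)) := by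
  have h1 := (hEUL α (wR N R (3 / 4)) (fun p => by unfold wR; rw [gR_zero, pow_zero, mul_one])
    (wR_summable h R (by norm_num))).1
  refine h1.congr fun b => ?_
  rw [wR_prod, abs_mul, abs_of_nonneg (by positivity : 0 ≤ (nF N b : ℝ) ^ (-(3 / 4) : ℝ))]

/-- the constant -/
noncomputable def GN (N : α → ℕ) (R : Finset α) : ℝ := ∏ p ∈ R, (1 - 1 / (N p : ℝ))⁻¹

lemma gN_tsum (hEUL : T_EUL) (h : AxA N ρ δ) (R : Finset α) :
    ∑' b : α →₀ ℕ, gN R b / nF N b = GN N R := by
  classical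
  have h1 := (hEUL α (wR N R 1) (fun p => by unfold wR; rw [gR_zero, pow_zero, mul_one])
    (wR_summable h R (by norm_num))).2.2.1
  have h2 : ∑' b : α →₀ ℕ, gN R b / nF N b = ∑' n : α →₀ ℕ, n.prod (wR N R 1) := by
    refine tsum_congr fun b => ?_
    rw [wR_prod, Real.rpow_neg_one, div_eq_mul_inv]
  rw [h2, h1, tprod_eq_prod (s := R)]
  · unfold GN
    refine Finset.prod_congr rfl fun p hp => ?_
    have hr := wt_lt h one_pos p
    rw [Real.rpow_neg_one] at hr
    have h3 : ∀ k : ℕ, wR N R 1 p k = ((N p : ℝ)⁻¹) ^ k := fun k => by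
      unfold wR gR
      rw [if_pos hp, one_mul, Real.rpow_neg_one]
    rw [tsum_congr h3, tsum_geometric_of_lt_one hr.1 hr.2, one_div]
  · intro p hp
    rw [tsum_eq_single 0]
    · unfold wR
      rw [gR_zero, pow_zero, mul_one]
    · intro k hk
      unfold wR gR
      rw [if_neg hp, if_neg hk, zero_mul]

lemma T_asymp (hCVP : T_CVP) (hEUL : T_EUL) (hMU1 : T_MU1) (h : AxA N ρ δ) (R : Finset α)
    (k : ℕ) : ∃ C : ℝ, 0 ≤ C ∧ ∀ y : ℝ, 1 ≤ y →
      |Lam N (cN R) (lg (k + 2)) y - ρ⁻¹ * GN N R * ((k + 2) * lg (k + 1) y)| ≤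
      C * (1 + Real.log y) ^ k := by
  obtain ⟨C1, hC1, h1⟩ := hMU1 α N ρ δ h (k + 2) (by omega)
  refine ⟨(C1 + |((k : ℝ) + 2) / ρ| * (4 * (k + 1))) *
    (∑' b : α →₀ ℕ, |gN R b| * (nF N b : ℝ) ^ (-(3 / 4) : ℝ)), ?_, fun y hy => ?_⟩
  · have : 0 ≤ ∑' b : α →₀ ℕ, |gN R b| * (nF N b : ℝ) ^ (-(3 / 4) : ℝ) :=
      tsum_nonneg fun b => by positivity
    positivity
  have h3 : ∀ y : ℝ, 1 ≤ y → |Lam N mr (lg (k + 2)) y - ((k : ℝ) + 2) / ρ * lg (k + 1) y| ≤
      C1 * (1 + Real.log y) ^ k := by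
    intro y hy
    have := h1 y hy
    push_cast at this
    exact this
  have h4 := conv_asymp h hC1.le h3 (gN_summable hEUL h R) hy
  rw [gN_tsum hEUL h] at h4
  have h5 : Lam N (cv mr (gN R)) (lg (k + 2)) y = Lam N (cN R) (lg (k + 2)) y := by
    unfold Lam
    exact Finset.sum_congr rfl fun n _ => by rw [cv_mr_gN hCVP]
  rw [h5] at h4
  have h6 : ρ⁻¹ * GN N R * ((k + 2) * lg (k + 1) y) =
      GN N R * (((k : ℝ) + 2) / ρ * lg (k + 1) y) := by
    rw [div_eq_mul_inv]
    ring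
  rw [h6]
  exact h4

lemma T_bound (hCVP : T_CVP) (hEUL : T_EUL) (hMU1 : T_MU1) (h : AxA N ρ δ) (R : Finset α)
    (k : ℕ) : ∃ C : ℝ, 0 ≤ C ∧
    ∀ y : ℝ, 1 ≤ y → |Lam N (cN R) (lg (k + 2)) y| ≤ C * (1 + Real.log y) ^ (k + 1) := by
  obtain ⟨G, hG⟩ : ∃ G : ℝ, G = ρ⁻¹ * GN N R := ⟨_, rfl⟩
  obtain ⟨C, hC, h0⟩ := T_asymp hCVP hEUL hMU1 h R k
  rw [← hG] at h0
  refine ⟨|G| * (k + 2) + C, by positivity, fun y hy => ?_⟩
  have hL := Real.log_nonneg hy
  have h1 := h0 y hy
  have h2 : |G * ((k + 2) * lg (k + 1) y)| ≤ |G| * (k + 2) * (1 + Real.log y) ^ (k + 1) := by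
    unfold lg
    rw [abs_mul, abs_mul, abs_of_pos (by positivity : (0 : ℝ) < (k : ℝ) + 2),
      abs_of_nonneg (by positivity : 0 ≤ Real.log y ^ (k + 1)), ← mul_assoc]
    gcongr
    linarith
  have h3 : C * (1 + Real.log y) ^ k ≤ C * (1 + Real.log y) ^ (k + 1) := by
    gcongr
    · linarith
    · omega
  calc |Lam N (cN R) (lg (k + 2)) y|
      = |(Lam N (cN R) (lg (k + 2)) y - G * ((k + 2) * lg (k + 1) y)) +
          G * ((k + 2) * lg (k + 1) y)| := by ring_nf
    _ ≤ |Lam N (cN R) (lg (k + 2)) y - G * ((k + 2) * lg (k + 1) y)| +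
          |G * ((k + 2) * lg (k + 1) y)| := abs_add_le _ _
    _ ≤ C * (1 + Real.log y) ^ (k + 1) + |G| * (k + 2) * (1 + Real.log y) ^ (k + 1) := by
        linarith
    _ = _ := by ring

lemma log_two_le {M : ℝ} (hM : 2 ≤ M) : 1 / 2 < Real.log M ∧ 1 + Real.log M ≤ 3 * Real.log M := by
  have h1 : Real.log 2 ≤ Real.log M := Real.log_le_log (by norm_num) hM
  have h2 := Real.log_two_gt_d9
  constructor <;> linarith

/-- the statement for one monomial -/
lemma mono_bound (hCVP : T_CVP) (hEUL : T_EUL) (hMU1 : T_MU1) (h : AxA N ρ δ) (R : Finset α)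
    (κ L₀ : ℝ) (k : ℕ) : ∃ D : ℝ, 0 ≤ D ∧
    ∀ M L : ℝ, 2 ≤ M → |L - κ * Real.log M| ≤ L₀ →
      |Lam N (cN R) (lg (k + 2)) M / Real.log M ^ (k + 2)| ≤ D / Real.log M ∧
      |((L - Real.log M) * Lam N (cN R) (lg (k + 2)) M + Lam N (cN R) (lg (k + 3)) M) /
        Real.log M ^ (k + 2) - ρ⁻¹ * GN N R * (1 + κ * (k + 2))| ≤ D / Real.log M := by
  obtain ⟨G, hG⟩ : ∃ G : ℝ, G = ρ⁻¹ * GN N R := ⟨_, rfl⟩
  obtain ⟨C1, hC1, h1⟩ := T_asymp hCVP hEUL hMU1 h R k
  obtain ⟨C2, hC2, h2⟩ := T_asymp hCVP hEUL hMU1 h R (k + 1)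
  obtain ⟨C3, hC3, h3⟩ := T_bound hCVP hEUL hMU1 h R k
  rw [← hG] at h1 h2 ⊢
  refine ⟨C3 * 3 ^ (k + 1) + |G| * ((k + 2) * |L₀|) + 2 * (|L₀| + |κ - 1|) * C1 * 3 ^ k +
    C2 * 3 ^ (k + 1), by positivity, fun M L hM hL => ?_⟩
  have hM1 : (1 : ℝ) ≤ M := by linarith
  obtain ⟨hl, hl3⟩ := log_two_le hM
  obtain ⟨l, hldef⟩ : ∃ l : ℝ, l = Real.log M := ⟨_, rfl⟩
  rw [← hldef] at hl hl3 hL ⊢
  have hl0 : 0 < l := by linarith
  have hLL : |L - κ * l| ≤ |L₀| := hL.trans (le_abs_self _)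
  have e1 := h1 M hM1
  have e2 := h2 M hM1
  have e3 := h3 M hM1
  rw [← hldef] at e1 e2 e3
  have hp : ∀ j : ℕ, (1 + l) ^ j ≤ 3 ^ j * l ^ j := fun j => by
    rw [← mul_pow]
    exact pow_le_pow_left₀ (by linarith) hl3 j
  have hlk : (0 : ℝ) < l ^ (k + 2) := by positivity
  have hb1 : C3 * (1 + l) ^ (k + 1) / l ^ (k + 2) ≤ C3 * 3 ^ (k + 1) / l := by
    rw [div_le_div_iff₀ hlk hl0]
    have := mul_le_mul_of_nonneg_left (hp (k + 1)) hC3
    calc C3 * (1 + l) ^ (k + 1) * l ≤ C3 * (3 ^ (k + 1) * l ^ (k + 1)) * l := by gcongr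
      _ = _ := by ring
  constructor
  · rw [abs_div, abs_of_pos hlk]
    calc |Lam N (cN R) (lg (k + 2)) M| / l ^ (k + 2) ≤ C3 * (1 + l) ^ (k + 1) / l ^ (k + 2) := by
          gcongr
      _ ≤ C3 * 3 ^ (k + 1) / l := hb1
      _ ≤ _ := by
          gcongr
          have : 0 ≤ |G| * ((k + 2) * |L₀|) + 2 * (|L₀| + |κ - 1|) * C1 * 3 ^ k +
            C2 * 3 ^ (k + 1) := by positivity
          linarith
  · obtain ⟨x1, hx1⟩ : ∃ x1 : ℝ, x1 = Lam N (cN R) (lg (k + 2)) M -
      G * ((k + 2) * lg (k + 1) M) := ⟨_, rfl⟩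
    obtain ⟨x2, hx2⟩ : ∃ x2 : ℝ, x2 = Lam N (cN R) (lg (k + 3)) M -
      G * ((k + 3) * lg (k + 2) M) := ⟨_, rfl⟩
    have f1 : |x1| ≤ C1 * (1 + l) ^ k := by rw [hx1]; exact e1
    have f2 : |x2| ≤ C2 * (1 + l) ^ (k + 1) := by
      rw [hx2]
      have h7 : (((k + 1 : ℕ) : ℝ) + 2) = (k : ℝ) + 3 := by push_cast; ring
      have h8 := e2
      rw [h7] at h8
      exact h8
    have g1 : Lam N (cN R) (lg (k + 2)) M = G * ((k + 2) * l ^ (k + 1)) + x1 := by
      rw [hx1, hldef]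
      unfold lg
      ring
    have g2 : Lam N (cN R) (lg (k + 3)) M = G * ((k + 3) * l ^ (k + 2)) + x2 := by
      rw [hx2, hldef]
      unfold lg
      ring
    have hkey : ((L - l) * Lam N (cN R) (lg (k + 2)) M + Lam N (cN R) (lg (k + 3)) M) /
        l ^ (k + 2) - G * (1 + κ * (k + 2)) =
        G * ((k + 2) * (L - κ * l)) / l + (L - l) * x1 / l ^ (k + 2) + x2 / l ^ (k + 2) := by
      rw [g1, g2]
      field_simp
      ring
    rw [hkey]
    have b1 : |G * ((k + 2) * (L - κ * l)) / l| ≤ |G| * ((k + 2) * |L₀|) / l := by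
      rw [abs_div, abs_mul, abs_mul, abs_of_pos hl0,
        abs_of_pos (by positivity : (0 : ℝ) < (k : ℝ) + 2)]
      gcongr
    have b2 : |(L - l) * x1 / l ^ (k + 2)| ≤ 2 * (|L₀| + |κ - 1|) * C1 * 3 ^ k / l := by
      rw [abs_div, abs_mul, abs_of_pos hlk]
      have h5 : |L - l| ≤ 2 * (|L₀| + |κ - 1|) * l := by
        calc |L - l| = |(L - κ * l) + (κ - 1) * l| := by ring_nf
          _ ≤ |L - κ * l| + |(κ - 1) * l| := abs_add_le _ _
          _ ≤ |L₀| + |κ - 1| * l := by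
              rw [abs_mul, abs_of_pos hl0]
              gcongr
          _ ≤ _ := by
              have q1 : 0 ≤ |L₀| := abs_nonneg _
              have q2 : 0 ≤ |κ - 1| := abs_nonneg _
              nlinarith [mul_nonneg q1 (by linarith : 0 ≤ 2 * l - 1), mul_nonneg q2 hl0.le]
      rw [div_le_div_iff₀ hlk hl0]
      calc |L - l| * |x1| * l ≤ (2 * (|L₀| + |κ - 1|) * l) * (C1 * (3 ^ k * l ^ k)) * l := by
            gcongr
            refine f1.trans ?_
            gcongr
            exact hp k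
        _ = _ := by ring
    have b3 : |x2 / l ^ (k + 2)| ≤ C2 * 3 ^ (k + 1) / l := by
      rw [abs_div, abs_of_pos hlk, div_le_div_iff₀ hlk hl0]
      calc |x2| * l ≤ (C2 * (3 ^ (k + 1) * l ^ (k + 1))) * l := by
            gcongr
            refine f2.trans ?_
            gcongr
            exact hp (k + 1)
        _ = _ := by ring
    have b4 : 0 ≤ C3 * 3 ^ (k + 1) / l := by positivity
    calc |G * ((k + 2) * (L - κ * l)) / l + (L - l) * x1 / l ^ (k + 2) + x2 / l ^ (k + 2)|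
        ≤ |G * ((k + 2) * (L - κ * l)) / l| + |(L - l) * x1 / l ^ (k + 2)| +
          |x2 / l ^ (k + 2)| := abs_add_three _ _ _
      _ ≤ |G| * ((k + 2) * |L₀|) / l + 2 * (|L₀| + |κ - 1|) * C1 * 3 ^ k / l +
          C2 * 3 ^ (k + 1) / l := by linarith
      _ ≤ C3 * 3 ^ (k + 1) / l + |G| * ((k + 2) * |L₀|) / l +
          2 * (|L₀| + |κ - 1|) * C1 * 3 ^ k / l + C2 * 3 ^ (k + 1) / l := by linarith
      _ = _ := by ring

lemma mr_sqfree {n : α →₀ ℕ} (h : ∀ p, n p ≤ 1) : mr n = (-1 : ℝ) ^ n.support.card := by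
  unfold mr Finsupp.prod
  rw [← Finset.prod_const]
  refine Finset.prod_congr rfl fun p hp => ?_
  have h1 := h p
  have h2 := Finsupp.mem_support_iff.1 hp
  exact if_pos (by omega)

lemma mr_not {n : α →₀ ℕ} (h : ¬ ∀ p, n p ≤ 1) : mr n = 0 := by
  push Not at h
  obtain ⟨p, hp⟩ := h
  unfold mr Finsupp.prod
  refine Finset.prod_eq_zero (i := p) (Finsupp.mem_support_iff.2 (by omega)) ?_
  exact if_neg (by omega)

end

theorem pf_MU3 (hCVP : T_CVP) (hEUL : T_EUL) (hMU1 : T_MU1) : T_MU3 := by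
  classical
  intro α N ρ δ h P R κ L₀ hP
  choose D hD h0 using fun k => mono_bound hCVP hEUL hMU1 h R κ L₀ k
  -- the coefficients
  have hc : ∀ k < 5, P.coeff k = 0 := fun k hk => by
    obtain ⟨Q, rfl⟩ := hP
    rw [Polynomial.coeff_X_pow_mul', if_neg (by omega)]
  obtain ⟨n, hn⟩ : ∃ n : ℕ, n = P.natDegree + 1 := ⟨_, rfl⟩
  have heval : ∀ x : ℝ, P.eval x = ∑ k ∈ Finset.range n, P.coeff k * x ^ k := fun x => by
    rw [hn, Polynomial.eval_eq_sum_range]
  have hder : P.derivative.eval 1 = ∑ k ∈ Finset.range n, P.coeff k * k := by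
    rw [Polynomial.derivative_eval, Polynomial.sum_over_range' P (by simp) n (by omega)]
    simp
  refine ⟨∑ k ∈ Finset.range n, |P.coeff k| * D (k - 2) + 1, ?_, fun M L hM hL => ?_⟩
  · have : 0 ≤ ∑ k ∈ Finset.range n, |P.coeff k| * D (k - 2) :=
      Finset.sum_nonneg fun k _ => mul_nonneg (abs_nonneg _) (hD _)
    linarith
  obtain ⟨hl, -⟩ := log_two_le hM
  have hl0 : 0 < Real.log M := by linarith
  have hM0 : 0 < M := by linarith
  have hnS : ∀ m : α →₀ ℕ, (∀ p, m p ≤ 1) → nS N m.support = nF N m := fun m hm => by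
    rw [← nF_ind, ← eq_ind hm]
  have hcm : ∀ m ∈ FM N M, (if ∀ p, m p ≤ 1 then cm N P M R m.support / nS N m.support else 0) =
      ∑ k ∈ Finset.range n, P.coeff k / Real.log M ^ k *
        (cN R m / nF N m * lg k (M / nF N m)) := by
    intro m hm
    have h3 : (nF N m : ℝ) ≤ M := h.mem_FM.1 hm
    rw [cN_eq]
    by_cases hsq : ∀ p, m p ≤ 1
    · rw [if_pos hsq, hnS m hsq]
      unfold cm lg
      rw [hnS m hsq]
      by_cases hco : Disjoint m.support R
      · rw [if_pos ⟨h3, hco⟩, if_pos hco, heval, Finset.mul_sum, Finset.sum_div, mr_sqfree hsq]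
        refine Finset.sum_congr rfl fun k _ => ?_
        rw [div_pow]
        ring
      · rw [if_neg (fun h => hco h.2), if_neg hco]
        simp
    · rw [if_neg hsq, mr_not hsq]
      simp
  have hsum1 : ∑ S ∈ SM N M, cm N P M R S / nS N S =
      ∑ k ∈ Finset.range n, P.coeff k * (Lam N (cN R) (lg k) M / Real.log M ^ k) := by
    rw [h.sum_SM, Finset.sum_congr rfl (fun m hm => by convert hcm m hm), Finset.sum_comm]
    refine Finset.sum_congr rfl fun k _ => ?_
    rw [← Finset.mul_sum]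
    unfold Lam
    ring
  have hsum2 : ∑ S ∈ SM N M, cm N P M R S / nS N S * (L - Real.log (nS N S)) =
      ∑ k ∈ Finset.range n, P.coeff k * (((L - Real.log M) * Lam N (cN R) (lg k) M +
        Lam N (cN R) (lg (k + 1)) M) / Real.log M ^ k) := by
    have h5 : ∀ m ∈ FM N M, (if ∀ p, m p ≤ 1 then cm N P M R m.support / nS N m.support *
        (L - Real.log (nS N m.support)) else 0) =
        ∑ k ∈ Finset.range n, P.coeff k / Real.log M ^ k *
          ((L - Real.log M) * (cN R m / nF N m * lg k (M / nF N m)) +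
            cN R m / nF N m * lg (k + 1) (M / nF N m)) := by
      intro m hm
      have hm0 : (nF N m : ℝ) ≠ 0 := (h.nF_pos m).ne'
      have e1 : (if ∀ p, m p ≤ 1 then cm N P M R m.support / nS N m.support *
          (L - Real.log (nS N m.support)) else 0) =
          (if ∀ p, m p ≤ 1 then cm N P M R m.support / nS N m.support else 0) *
            (L - Real.log (nF N m)) := by
        split_ifs with hsq
        · rw [hnS m hsq]
        · rw [zero_mul]
      rw [e1, hcm m hm, Finset.sum_mul]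
      refine Finset.sum_congr rfl fun k _ => ?_
      have h6 : Real.log (M / nF N m) = Real.log M - Real.log (nF N m) :=
        Real.log_div hM0.ne' hm0
      unfold lg
      rw [pow_succ (Real.log (M / nF N m)) k]
      have h7 : L - Real.log (nF N m) = (L - Real.log M) + Real.log (M / nF N m) := by
        rw [h6]; ring
      rw [h7]
      ring
    rw [h.sum_SM, Finset.sum_congr rfl (fun m hm => by convert h5 m hm), Finset.sum_comm]
    refine Finset.sum_congr rfl fun k _ => ?_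
    rw [← Finset.mul_sum, Finset.sum_add_distrib, ← Finset.mul_sum]
    unfold Lam
    ring
  have hfin : (∑ k ∈ Finset.range n, |P.coeff k| * D (k - 2)) / Real.log M ≤
      (∑ k ∈ Finset.range n, |P.coeff k| * D (k - 2) + 1) / Real.log M := by
    gcongr
    linarith
  constructor
  · rw [hsum1]
    refine le_trans ?_ hfin
    rw [Finset.sum_div]
    refine (Finset.abs_sum_le_sum_abs _ _).trans (Finset.sum_le_sum fun k _ => ?_)
    rw [abs_mul, mul_div_assoc]
    rcases lt_or_ge k 5 with hk | hk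
    · rw [hc k hk]
      simp
    · obtain ⟨j, rfl⟩ : ∃ j, k = j + 2 := ⟨k - 2, by omega⟩
      exact mul_le_mul_of_nonneg_left (h0 j M L hM hL).1 (abs_nonneg _)
  · have hG : ∏ p ∈ R, (1 - 1 / (N p : ℝ))⁻¹ = GN N R := rfl
    rw [hsum2, hG]
    have h1 : ρ⁻¹ * GN N R * (P.eval 1 + κ * P.derivative.eval 1) =
        ∑ k ∈ Finset.range n, P.coeff k * (ρ⁻¹ * GN N R * (1 + κ * k)) := by
      rw [heval 1, hder, Finset.mul_sum, ← Finset.sum_add_distrib, Finset.mul_sum]
      exact Finset.sum_congr rfl fun k _ => by ring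
    rw [h1, ← Finset.sum_sub_distrib]
    refine le_trans ?_ hfin
    rw [Finset.sum_div]
    refine (Finset.abs_sum_le_sum_abs _ _).trans (Finset.sum_le_sum fun k _ => ?_)
    rw [← mul_sub, abs_mul, mul_div_assoc]
    rcases lt_or_ge k 5 with hk | hk
    · rw [hc k hk]
      simp
    · obtain ⟨j, rfl⟩ : ∃ j, k = j + 2 := ⟨k - 2, by omega⟩
      have h2 := (h0 j M L hM hL).2
      refine mul_le_mul_of_nonneg_left ?_ (abs_nonneg _)
      push_cast
      exact h2

end Pool.Agent.H38.NVK
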